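import Mathlib
import Pool.Agent.Lib.MP_a1853d_al.HY.MAIN
import Pool.Agent.Lib.MP_a1853d_al.HY.EXPD
import Pool.Agent.Lib.MP_a1853d_al.HY.SUPER
import Pool.Agent.Lib.MP_a1853d_al.HY.CUT
import Pool.Agent.Lib.MP_a1853d_al.HY.PERT
import Pool.Agent.Lib.MP_a1853d_al.HY.JMOD
import Pool.Agent.Lib.MP_a1853d_al.HY.REAS
import Pool.Agent.Lib.MP_a1853d_al.HY.ROT
import Pool.Agent.Lib.MP_a1853d_al.HY.PER
import Pool.Agent.Lib.MP_a1853d_al.HY.UP
import Pool.Agent.Lib.MP_a1853d_al.HY.ZERO
import Pool.Agent.Lib.MP_a1853d_al.HY.ANA
import Pool.Agent.Lib.MP_a1853d_al.HY.SYS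
import Pool.Agent.Lib.MP_a1853d_al.HY.B1
import Pool.Agent.Lib.MP_a1853d_al.HY.B2
import Pool.Agent.Lib.MP_a1853d_al.HY.LINA
import Pool.Agent.Lib.MP_a1853d_al.HY.LINB
import Pool.Agent.Lib.MP_a1853d_al.HY.MODA
import Pool.Agent.Lib.MP_a1853d_al.HY.MODB

set_option autoImplicit false

/-!
# Conjugacy growth of hyperbolic abelian-by-cyclic groups, all generating sets

Let `G` be generated by an infinite finitely generated abelian subgroup `B` and an element `t` with
`t B t⁻¹ ⊆ B`, such that the action of `t` has no eigenvalue of modulus `1` on `Hom(B, ℂ)`.  Then for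
every finite generating set `S` of `G` the conjugacy growth series is transcendental.

Outline.  `G = V ⋊ ℤ`, `V = ⋃ t⁻ⁱ B tⁱ`, `M` = conjugation by `t`.  A word is a path of heights, a letter
`(a, e)` read at height `h` contributes `M ^ h a`.  For `v` in the box of height `H` (integral
elements, of size `≤ R M ^ H` in the expanding and `≤ R` in the contracting directions) let `yl H v` be
the word length of `(v, H)` and `Y_H(z) = ∑_v z ^ (yl H v)`.  Then `Y` is supermultiplicative up to
constants and, by cutting shortest paths at good levels (clamped paths), submultiplicative on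
average.  At the critical point `ρ` one gets `∑ Y_H(ρ)/H = ∞`.  Every conjugacy class over `H` contains
at most `K H` elements of the box, and conversely every non-periodic class over `H` has at least `H/2`
rotations which are reassembled (clamping to all windows `[qH, (q+1)H]`) into different elements of the
box of almost the same length; periodic classes and classes over `0` are exponentially negligible at
`ρ` (perturbations by sums of `M ^ (q i) c`).  So the series tends to infinity at `ρ` like
`log 1/(ρ - z)`, which is impossible for an algebraic function.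
-/

namespace Pool.Agent.Results.MP_a1853d_al.AbelianByCyclic

open MPa1853dH

/-- Let `G` be a group generated by a subgroup `B` and an element `t`, where `B` is abelian, finitely
generated and infinite, `t B t⁻¹ ⊆ B`, and the only additive map `χ : B → ℂ` with
`χ (t b t⁻¹) = μ χ b` for some `μ` of modulus `1` is `0`.  For every finite generating set `S` of `G` the
power series whose `n`-th coefficient is the number of conjugacy classes of minimal word length `n`
(with respect to `S ∪ S⁻¹`) satisfies no nonzero polynomial equation over `ℚ[z]`. -/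
theorem result (G : Type) [Group G] (B : Subgroup G) (t : G)
    (hinv : ∀ b ∈ B, t * b * t⁻¹ ∈ B)
    (hcomm : ∀ a ∈ B, ∀ b ∈ B, a * b = b * a)
    (hfg : B.FG) (hinf : (B : Set G).Infinite)
    (hgen : Subgroup.closure ((B : Set G) ∪ {t}) = ⊤)
    (hyp : ∀ (χ : B → ℂ) (μ : ℂ), (∀ a b : B, χ (a * b) = χ a + χ b) → ‖μ‖ = 1 →
      (∀ b : B, χ ⟨t * b * t⁻¹, hinv b b.2⟩ = μ * χ b) → ∀ b, χ b = 0)
    (S : Finset G) (hS : Subgroup.closure (S : Set G) = ⊤) :
    ¬ ∃ P : Polynomial (Polynomial ℚ), P ≠ 0 ∧
      Polynomial.eval₂ Polynomial.coeToPowerSeries.ringHom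
        (PowerSeries.mk (fun n : ℕ =>
          ((Set.ncard {c : ConjClasses G |
            (∃ g : G, ConjClasses.mk g = c ∧
              ∃ l : List G, l.length ≤ n ∧ (∀ x ∈ l, x ∈ S ∨ x⁻¹ ∈ S) ∧ l.prod = g) ∧
            (∀ g : G, ConjClasses.mk g = c →
              ∀ l : List G, (∀ x ∈ l, x ∈ S ∨ x⁻¹ ∈ S) → l.prod = g → n ≤ l.length)} : ℕ) : ℚ)))
        P = 0 :=
  specMain specExpd specSuper (specCut specExpd) specPert specAna specSys (specB1 specJmod)
    (specB2 (specUp (specRot specExpd specJmod specReas) (specPer specPert specJmod))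
      (specZero specExpd specPert))
    (specLinB specLinA) specModA specModB G B t hinv hcomm hfg hinf hgen hyp S hS

end Pool.Agent.Results.MP_a1853d_al.AbelianByCyclic
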