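import Mathlib
import Pool.Agent.Lib.MP_a1853d_al.HH.Spec
import Pool.Agent.Lib.MP_a1853d_al.HH.XTR
import Pool.Agent.Lib.MP_a1853d_al.HH.CEN

set_option autoImplicit false

/-!
# Conjugacy growth of class-2 nilpotent groups with infinite cyclic centre, all generating sets

Let `G` be a finitely generated group whose centre `⟨z⟩` is infinite cyclic, with `G / ⟨z⟩` abelian,
such that `G` is not generated by two elements together with its centre.  (So `G` is nilpotent of
class 2 and torsion-free, `G / ⟨z⟩ = ℤ^(2r)` with `r ≥ 2`; the higher Heisenberg groups `H_r`,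
`r ≥ 2`, are examples.)  Then for every finite generating set the conjugacy growth series is
transcendental.

Outline.  `x⁻¹ y⁻¹ x y = z ^ ω(x, y)`; for `v ∈ A := G / ⟨z⟩ = ℤ^m` let `g(v)` be the gcd of the
`ω(v, ·)`.  The class of `x` over `v` is `x ⟨z ^ g(v)⟩`.
(1) If the series `f` is algebraic, it is bounded on the rays to all roots of unity except finitely
many, so on the rays to all `ζ ≠ 1`, `ζ^p = 1`, for every large prime `p`.
(2) Let `K` be prime to `p`.  The partition of `G` into the sets `x ⟨z ^ gcd(g(x), K)⟩` is invariant
under the translations by `s ^ K`, `s` a letter, which commute on it.  By a pigeonhole argument in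
shortest words, for every `M` all but finitely many parts `q` have a letter with
`|q s ^ (-M K)| = |q| - M K`; grouping the parts into progressions `q, q s^K, q s^(2K), ..` (chain
lemma) gives `∑_q (r ζ)^|q| = o((1 - r)^(-m))`.
(3) Every part contains a class of the same length.  The other classes are central (`O(n^2)` up to
length `n`), or have `g > T` (`O(n^m / T)`), or lie over `p A` (at least `c_p n^m`, `c_p` independent
of `T` and `K`).
(4) The lengths of the latter classes: `|x| = |v|_A + O(1)` and, by linear programming,
`q |p u|_A = p |q u|_A + O(1)` with `q` and all constants independent of `p`.  So for large `p` they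
avoid a residue class mod `p`, while (1), (2), (3) force them to be equidistributed mod `p` up to
`o(n^m)`.  Contradiction.
-/

namespace Pool.Agent.Results.MP_a1853d_al.HigherHeisenberg

open MPa1853d MPa1853d.HH

/-- Let `G` be a group whose centre is the infinite cyclic group generated by `z`, such that all
commutators are central and `G` is not generated by two elements and its centre.  For every finite
generating set `S` of `G` the power series whose `n`-th coefficient is the number of conjugacy
classes of minimal word length `n` (with respect to `S ∪ S⁻¹`) satisfies no nonzero polynomial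
equation over `ℚ[z]`. -/
theorem result (G : Type) [Group G] (z : G)
    (hz : Subgroup.center G = Subgroup.zpowers z) (hinf : ¬ IsOfFinOrder z)
    (hcomm : ∀ x y : G, x * y * x⁻¹ * y⁻¹ ∈ Subgroup.center G)
    (h2 : ∀ a b : G, Subgroup.closure ({a, b} ∪ (Subgroup.center G : Set G)) ≠ ⊤)
    (S : Finset G) (hS : Subgroup.closure (S : Set G) = ⊤) :
    ¬ ∃ P : Polynomial (Polynomial ℚ), P ≠ 0 ∧
      Polynomial.eval₂ Polynomial.coeToPowerSeries.ringHom
        (PowerSeries.mk (fun n : ℕ =>
          ((Set.ncard {c : ConjClasses G |
            (∃ g : G, ConjClasses.mk g = c ∧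
              ∃ l : List G, l.length ≤ n ∧ (∀ x ∈ l, x ∈ S ∨ x⁻¹ ∈ S) ∧ l.prod = g) ∧
            (∀ g : G, ConjClasses.mk g = c →
              ∀ l : List G, (∀ x ∈ l, x ∈ S ∨ x⁻¹ ∈ S) → l.prod = g →
                n ≤ l.length)} : ℕ) : ℚ)))
        P = 0 := by
  have hABL := specABL specLPC
  have hCLC := specCLC hABL specDET specCNT specCEN specCGC
  have hSKL := specSKL specCRI specGFA specGFB
  have hFIN := specFIN specCHN specGFA hSKL specCGC specDET hABL specFIB hCLC specSIG specXTR
    specQSY
  obtain ⟨m, hm, ⟨D⟩⟩ := specMOD G S z hS
    (fun x => by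
      rw [hz, Subgroup.mem_zpowers_iff]
      exact ⟨fun ⟨k, hk⟩ => ⟨k, hk.symm⟩, fun ⟨k, hk⟩ => ⟨k, hk.symm⟩⟩)
    (fun k hk => by
      by_contra hk0
      exact hinf (isOfFinOrder_iff_zpow_eq_one.2 ⟨k, hk0, hk⟩))
    (fun x y => by
      have := hcomm x⁻¹ y⁻¹
      rwa [inv_inv, inv_inv] at this)
    (fun a b => by
      have := h2 a b
      rwa [Subgroup.closure_union, Subgroup.closure_eq] at this)
  exact hFIN G m D S hm hS

end Pool.Agent.Results.MP_a1853d_al.HigherHeisenberg
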